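import Pool.Agent.Y667.MT.Stm

/-!
# Project MT, part GDR (helper571): a positive proportion of the data has groups of order `2 ^ r`
-/

set_option autoImplicit false

namespace Pool.Agent.Y571.MT

open Finset Filter Topology Pool.Agent.W262.RK Pool.Agent.W307.RT Pool.Agent.W307.RS
  Pool.Agent.W307.SE Pool.Agent.W307.FK Pool.Agent.Y667.RP Pool.Agent.Y667.RZ Pool.Agent.Y667.MT

/-- the sum over `Pt X` is at least `1 / 4` -/
theorem mert_low : ∃ X0 : ℕ, ∀ X : ℕ, X0 ≤ X → 1 / 4 ≤ ∑ q ∈ Pt X, 1 / ((q : ℝ) - 1) := by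
  obtain ⟨M, hM⟩ := Pool.Agent.H305R2.mertens_inv_tendsto
  set S : ℕ → ℝ := fun N => ∑ p ∈ (Icc 1 N).filter Nat.Prime, (1 : ℝ) / p with hS
  obtain ⟨N0, hN0⟩ := (Metric.tendsto_nhds.mp hM (1 / 64) (by norm_num)).exists_forall_of_atTop
  have hN : ∀ N : ℕ, N0 ≤ N → |S N - Real.log (Real.log N) - M| < 1 / 64 := by
    intro N h
    have := hN0 N h
    rwa [Real.dist_eq] at this
  have hq : Tendsto (fun X : ℕ => (X : ℝ) ^ (1 / 3 : ℝ)) atTop atTop :=
    (tendsto_rpow_atTop (by norm_num)).comp tendsto_natCast_atTop_atTop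
  have e1 : ∀ᶠ X : ℕ in atTop, (N0 : ℝ) + 8 ≤ (X : ℝ) ^ (1 / 3 : ℝ) :=
    hq.eventually_ge_atTop _
  have e2 : ∀ᶠ X : ℕ in atTop, (64 : ℝ) ≤ Real.log X := log_tendsto.eventually_ge_atTop _
  obtain ⟨X0, hX0⟩ := (e1.and e2).exists_forall_of_atTop
  refine ⟨max X0 2, fun X hX => ?_⟩
  obtain ⟨h1, h2⟩ := hX0 X ((le_max_left _ _).trans hX)
  have hX2 : 2 ≤ X := (le_max_right _ _).trans hX
  have hXr : (0 : ℝ) < X := by positivity
  set Q : ℝ := (X : ℝ) ^ (1 / 3 : ℝ) with hQ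
  set R : ℝ := (X : ℝ) ^ (1 / 2 : ℝ) with hR
  have hN0' : (0 : ℝ) ≤ N0 := Nat.cast_nonneg _
  have hQ8 : 8 ≤ Q := by linarith
  have hR0 : 0 ≤ R := by rw [hR]; positivity
  have hQR2 : R ^ 2 = Q ^ 3 := by
    rw [hQ, hR, ← Real.rpow_natCast, ← Real.rpow_mul hXr.le, ← Real.rpow_natCast,
      ← Real.rpow_mul hXr.le]
    norm_num
  have hQR : Q + 1 ≤ R := by
    by_contra hcon
    push Not at hcon
    have h5 : R ^ 2 ≤ (Q + 1) ^ 2 := pow_le_pow_left₀ hR0 hcon.le 2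
    rw [hQR2] at h5
    nlinarith [mul_nonneg (by linarith : 0 ≤ Q - 8) (sq_nonneg Q)]
  set N1 : ℕ := ⌈Q⌉₊ - 1 with hN1
  set N2 : ℕ := ⌊R⌋₊ with hN2
  have hc1 : 1 ≤ ⌈Q⌉₊ := Nat.one_le_ceil_iff.2 (by linarith)
  have hN1r : (N1 : ℝ) = (⌈Q⌉₊ : ℝ) - 1 := by rw [hN1, Nat.cast_sub hc1]; simp
  have hN1a : Q - 1 ≤ N1 := by
    rw [hN1r]
    have := Nat.le_ceil Q
    linarith
  have hN1b : (N1 : ℝ) < Q := by
    rw [hN1r]
    have := Nat.ceil_lt_add_one (by linarith : 0 ≤ Q)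
    linarith
  have hN2a : (N2 : ℝ) ≤ R := Nat.floor_le (by positivity)
  have hN2b : R - 1 < N2 := by
    have := Nat.lt_floor_add_one R
    linarith
  have hN1N0 : N0 ≤ N1 := by
    have : (N0 : ℝ) ≤ N1 := by linarith
    exact_mod_cast this
  have hN2N0 : N0 ≤ N2 := by
    have : (N0 : ℝ) ≤ N2 := by linarith
    exact_mod_cast this
  have hN12 : N1 ≤ N2 := by
    have : (N1 : ℝ) ≤ N2 := by linarith
    exact_mod_cast this
  have hRX : R ≤ X := by
    rw [hR]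
    calc (X : ℝ) ^ (1 / 2 : ℝ) ≤ (X : ℝ) ^ (1 : ℝ) :=
          Real.rpow_le_rpow_of_exponent_le (by exact_mod_cast (by omega : 1 ≤ X)) (by norm_num)
      _ = X := Real.rpow_one _
  have hsum : S N2 - S N1 ≤ ∑ q ∈ Pt X, (1 : ℝ) / ((q : ℝ) - 1) := by
    have h3 : S N2 - S N1 = ∑ q ∈ (Ioc N1 N2).filter Nat.Prime, (1 : ℝ) / q := by
      rw [hS]
      simp only
      rw [sub_eq_iff_eq_add, ← sum_union]
      · apply sum_congr _ (fun _ _ => rfl)
        ext q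
        simp only [mem_union, mem_filter, mem_Ioc, mem_Icc]
        constructor
        · rintro ⟨⟨a1, a2⟩, a3⟩
          rcases Nat.lt_or_ge N1 q with h | h
          · exact Or.inl ⟨⟨h, a2⟩, a3⟩
          · exact Or.inr ⟨⟨a1, h⟩, a3⟩
        · rintro (⟨⟨a1, a2⟩, a3⟩ | ⟨⟨a1, a2⟩, a3⟩)
          · exact ⟨⟨by omega, a2⟩, a3⟩
          · exact ⟨⟨a1, by omega⟩, a3⟩
      · rw [disjoint_left]
        intro q hq1 hq2
        rw [mem_filter, mem_Ioc] at hq1
        rw [mem_filter, mem_Icc] at hq2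
        omega
    rw [h3]
    calc ∑ q ∈ (Ioc N1 N2).filter Nat.Prime, (1 : ℝ) / q ≤
          ∑ q ∈ (Ioc N1 N2).filter Nat.Prime, (1 : ℝ) / ((q : ℝ) - 1) := by
          apply sum_le_sum
          intro q hq
          rw [mem_filter] at hq
          have h4 : (2 : ℝ) ≤ q := by exact_mod_cast hq.2.two_le
          apply one_div_le_one_div_of_le (by linarith)
          linarith
      _ ≤ _ := by
          apply sum_le_sum_of_subset_of_nonneg
          · intro q hq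
            rw [mem_filter, mem_Ioc] at hq
            unfold Pt
            rw [mem_filter, mem_Icc]
            have h4 : (q : ℝ) ≤ N2 := by exact_mod_cast hq.1.2
            have h5 : (⌈Q⌉₊ : ℝ) ≤ q := by
              have : ⌈Q⌉₊ ≤ q := by omega
              exact_mod_cast this
            have h6 := Nat.le_ceil Q
            refine ⟨⟨hq.2.one_lt.le, ?_⟩, hq.2, by linarith, by linarith⟩
            have : (q : ℝ) ≤ X := by linarith
            exact_mod_cast this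
          · intro q hq _
            unfold Pt at hq
            rw [mem_filter] at hq
            have h4 : (2 : ℝ) ≤ q := by exact_mod_cast hq.2.1.two_le
            exact div_nonneg (by norm_num) (by linarith)
  have hdiff : Real.log (Real.log N2) - Real.log (Real.log N1) - 1 / 32 ≤ S N2 - S N1 := by
    have a1 := abs_lt.1 (hN N2 hN2N0)
    have a2 := abs_lt.1 (hN N1 hN1N0)
    linarith [a1.1, a1.2, a2.1, a2.2]
  have hL : 0 < Real.log X := by linarith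
  have hN1pos : (7 : ℝ) ≤ N1 := by linarith
  have hlogN1 : Real.log N1 ≤ Real.log X / 3 := by
    have := Real.log_le_log (by linarith) hN1b.le
    rw [hQ, Real.log_rpow hXr] at this
    linarith
  have hlogN1' : 0 < Real.log N1 := Real.log_pos (by linarith)
  have hlogN2 : Real.log X / 2 - 1 ≤ Real.log N2 := by
    have h3 : R / 2 ≤ N2 := by linarith
    have h4 := Real.log_le_log (by linarith) h3
    rw [Real.log_div (by linarith) (by norm_num), hR, Real.log_rpow hXr] at h4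
    have := Real.log_two_lt_d9
    linarith
  have h75 : 7 / 5 * Real.log N1 ≤ Real.log N2 := by linarith
  have h76 : Real.log (7 / 5) + Real.log (Real.log N1) ≤ Real.log (Real.log N2) := by
    rw [← Real.log_mul (by norm_num) hlogN1'.ne']
    exact Real.log_le_log (by positivity) h75
  have h77 : 1 - (7 / 5 : ℝ)⁻¹ ≤ Real.log (7 / 5) :=
    Real.one_sub_inv_le_log_of_pos (by norm_num)
  norm_num at h77
  linarith

lemma PP_mono {z y y' : ℕ} (h : y ≤ y') : PP z y ∣ PP z y' := by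
  unfold PP
  apply prod_dvd_prod_of_subset
  unfold PS
  exact filter_subset_filter _ (Ioc_subset_Ioc_right h)

lemma mem_TupI {ι : Type} [Fintype ι] [DecidableEq ι] {z y : ℕ} {d : ι → ℕ}
    (h1 : ∀ i, d i ∣ PP z y) (h2 : ∀ i j, i ≠ j → (d i).Coprime (d j)) : d ∈ Tup ι z y := by
  unfold Tup
  rw [mem_filter, Fintype.mem_piFinset]
  exact ⟨fun i => Nat.mem_divisors.2 ⟨h1 i, (PP_sqf z y).ne_zero⟩, h2⟩

/-- the new datum -/
lemma up_mem {z Y : ℕ} {B : ℝ} {s : Fin 3 → ℕ} {q : ℕ} (hY : Y = ⌊B⌋₊) (hB : 0 ≤ B)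
    (hY1 : 1 ≤ Y) (hs : s ∈ Trip z ((Y : ℝ) ^ (1 / 2000 : ℝ))) (hq : q.Prime) (hqz : z < q)
    (hqY : (q : ℝ) ≤ (Y : ℝ) ^ (1 / 2 : ℝ)) (hqs : ¬ q ∣ ∏ j, s j) : up s q ∈ Trip z B := by
  obtain ⟨hD, hS⟩ := Trip_dat hs
  have hY1r : (1 : ℝ) ≤ Y := by exact_mod_cast hY1
  have hYr : (0 : ℝ) < Y := by linarith
  have hYB : (Y : ℝ) ≤ B := by
    rw [hY]; exact Nat.floor_le hB
  have h1 : (Y : ℝ) ^ (1 / 2000 : ℝ) ≤ Y := by
    calc (Y : ℝ) ^ (1 / 2000 : ℝ) ≤ (Y : ℝ) ^ (1 : ℝ) :=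
          Real.rpow_le_rpow_of_exponent_le hY1r (by norm_num)
      _ = Y := Real.rpow_one _
  have h2 : (Y : ℝ) ^ (1 / 2 : ℝ) ≤ Y := by
    calc (Y : ℝ) ^ (1 / 2 : ℝ) ≤ (Y : ℝ) ^ (1 : ℝ) :=
          Real.rpow_le_rpow_of_exponent_le hY1r (by norm_num)
      _ = Y := Real.rpow_one _
  have h3 : (Y : ℝ) ^ (1 / 2000 : ℝ) * (Y : ℝ) ^ (1 / 2 : ℝ) ≤ Y := by
    rw [← Real.rpow_add hYr]
    calc (Y : ℝ) ^ (1 / 2000 + 1 / 2 : ℝ) ≤ (Y : ℝ) ^ (1 : ℝ) :=
          Real.rpow_le_rpow_of_exponent_le hY1r (by norm_num)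
      _ = Y := Real.rpow_one _
  have hfl : ⌊(Y : ℝ) ^ (1 / 2000 : ℝ)⌋₊ ≤ Y := by
    have := Nat.floor_le_floor h1
    rwa [Nat.floor_natCast] at this
  obtain ⟨h0, -⟩ := mem_filter.1 hs
  obtain ⟨hd, hc⟩ := mem_TupR h0
  have hd' : ∀ i, s i ∣ PP z Y := fun i => (hd i).trans (PP_mono hfl)
  have hqPP : q ∣ PP z Y := by
    unfold PP
    apply dvd_prod_of_mem
    unfold PS
    rw [mem_filter, mem_Ioc]
    refine ⟨⟨hqz, ?_⟩, hq⟩
    have : (q : ℝ) ≤ Y := hqY.trans h2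
    exact_mod_cast this
  have hqc : ∀ i, (s i).Coprime q := fun i =>
    ((Nat.Prime.coprime_iff_not_dvd hq).2 (fun h => hqs (h.trans (Dat.dvd i)))).symm
  unfold Trip
  rw [mem_filter, ← hY]
  refine ⟨?_, ?_⟩
  · refine mem_TupI ?_ ?_
    · intro i
      fin_cases i
      · show up s q 0 ∣ _
        rw [up_zero]; exact hd' 0
      · show up s q 1 ∣ _
        rw [up_one]; exact hd' 1
      · show up s q 2 ∣ _
        rw [up_two]
        exact (hqc 2).mul_dvd_of_dvd_of_dvd (hd' 2) hqPP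
    · have k01 : (up s q 0).Coprime (up s q 1) := by
        rw [up_zero, up_one]; exact hc 0 1 (by decide)
      have k02 : (up s q 0).Coprime (up s q 2) := by
        rw [up_zero, up_two]
        exact Nat.Coprime.mul_right (hc 0 2 (by decide)) (hqc 0)
      have k12 : (up s q 1).Coprime (up s q 2) := by
        rw [up_one, up_two]
        exact Nat.Coprime.mul_right (hc 1 2 (by decide)) (hqc 1)
      intro i j hij
      fin_cases i <;> fin_cases j
      · exact absurd rfl hij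
      · exact k01
      · exact k02
      · exact k01.symm
      · exact absurd rfl hij
      · exact k12
      · exact k02.symm
      · exact k12.symm
      · exact absurd rfl hij
  · intro j
    fin_cases j
    · show (up s q 0 : ℝ) ≤ B
      rw [up_zero]
      exact ((hS 0).trans h1).trans hYB
    · show (up s q 1 : ℝ) ≤ B
      rw [up_one]
      exact ((hS 1).trans h1).trans hYB
    · show (up s q 2 : ℝ) ≤ B
      rw [up_two]
      push_cast
      refine le_trans ?_ hYB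
      refine le_trans ?_ h3
      exact mul_le_mul (hS 2) hqY (Nat.cast_nonneg _) (by positivity)

lemma mu_up {z : ℕ} {s : Fin 3 → ℕ} (hD : Dat z s) {q : ℕ} (hq : q.Prime)
    (hqs : ¬ q ∣ ∏ j, s j) : mu (up s q) = mu s / (2 * q) := by
  unfold mu
  have h1 : (∏ j, up s q j).primeFactors.card = (∏ j, s j).primeFactors.card + 1 := by
    rw [up_prod, Nat.Coprime.primeFactors_mul ((Nat.Prime.coprime_iff_not_dvd hq).2 hqs).symm,
      card_union_of_disjoint]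
    · rw [Nat.Prime.primeFactors hq, card_singleton]
    · exact Nat.Coprime.disjoint_primeFactors ((Nat.Prime.coprime_iff_not_dvd hq).2 hqs).symm
  have e1 : ∏ j, 1 / (up s q j : ℝ) = 1 / (s 0 : ℝ) * (1 / (s 1 : ℝ)) * (1 / ((s 2 : ℝ) * q)) := by
    rw [Fin.prod_univ_three, up_zero, up_one, up_two]
    push_cast
    rfl
  have e2 : ∏ j, 1 / (s j : ℝ) = 1 / (s 0 : ℝ) * (1 / (s 1 : ℝ)) * (1 / (s 2 : ℝ)) :=
    Fin.prod_univ_three _
  rw [h1, e1, e2, pow_succ]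
  have hq0 : (q : ℝ) ≠ 0 := by exact_mod_cast hq.ne_zero
  have h0 : (s 0 : ℝ) ≠ 0 := by exact_mod_cast hD.ne 0
  have h1' : (s 1 : ℝ) ≠ 0 := by exact_mod_cast hD.ne 1
  have h2 : (s 2 : ℝ) ≠ 0 := by exact_mod_cast hD.ne 2
  field_simp

lemma mu_nonneg (s : Fin 3 → ℕ) : 0 ≤ mu s := by
  unfold mu
  exact mul_nonneg (by positivity) (prod_nonneg fun j _ => by positivity)

open Classical in
/-- the good sign sets -/
noncomputable def DS (r : ℕ) (s : Fin 3 → ℕ) : Finset (Finset ℕ) :=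
  (∏ j, s j).primeFactors.powerset.filter (fun E => Dt r s E)

/-- the induction statement -/
def PP' (r : ℕ) : Prop := ∃ z0 : ℕ, ∀ z : ℕ, z0 ≤ z → ∀ κ : ℝ, 0 < κ → ∃ c : ℝ, 0 < c ∧
  ∃ X0 : ℕ, ∀ X : ℕ, X0 ≤ X →
    c * Real.log X ^ 3 ≤ ∑ s ∈ Trip z ((X : ℝ) ^ κ), mu s * ((DS r s).card : ℝ)

lemma DS_card (r : ℕ) (s : Fin 3 → ℕ) : (DS r s).card ≤ 2 ^ (∏ j, s j).primeFactors.card := by
  classical
  rw [← card_powerset]
  exact card_filter_le _ _

/-- a new datum has larger groups -/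
lemma dt_up (hG : St_GRP) {z r : ℕ} {s : Fin 3 → ℕ} {E F : Finset ℕ} {q : ℕ} (hz : 17 ≤ z)
    (hD : Dat z s) (hE : E ⊆ (∏ j, s j).primeFactors) (hDt : Dt r s E) (hq : q.Prime)
    (hzq : z < q) (hqs : ¬ q ∣ ∏ j, s j) (hF : F = E ∨ F = insert q E)
    (h1 : ¬ V0 (up s q) F ⊆ V0 s E) (h2 : ¬ V17 (up s q) F ⊆ V17 s E) :
    Dt (r + 1) (up s q) F := by
  have h17 : ¬ 17 ∣ ∏ j, s j := by
    intro h
    have := hD.gt 17 (by norm_num) h
    omega
  have hq34 : ¬ q ∣ 34 * ∏ j, s j := by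
    intro h
    rcases (hq.dvd_mul).1 h with h | h
    · have h3 : q ∣ 2 * 17 := h
      rcases (hq.dvd_mul).1 h3 with h' | h'
      · have := Nat.le_of_dvd (by norm_num) h'
        omega
      · have := Nat.le_of_dvd (by norm_num) h'
        omega
    · exact hqs h
  obtain ⟨-, g1, g2⟩ := hG s E q hD.sqf (hD.odd (by omega)) h17 hE hq hq34 F hF
  refine ⟨?_, ?_, ?_⟩
  · have h3 := g1 h1
    rw [hDt.1] at h3
    show (V0 (Function.update s 2 (s 2 * q)) F).ncard = _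
    rw [h3, pow_succ]
    ring
  · have h3 := g2 h2
    rw [hDt.2.1] at h3
    show (V17 (Function.update s 2 (s 2 * q)) F).ncard = _
    rw [h3, pow_succ]
    ring
  · intro σ hσ
    obtain ⟨p, hp, hps, hj⟩ := hDt.2.2 σ hσ
    refine ⟨p, hp, ?_, hj⟩
    rw [up_prod]
    exact hps.mul_right _

open Classical in
/-- the chosen signs -/
noncomputable def FF (s : Fin 3 → ℕ) (E : Finset ℕ) (q : ℕ) : Finset ℕ :=
  if h : Rs s E q then h.choose else E

lemma FF_spec {s : Fin 3 → ℕ} {E : Finset ℕ} {q : ℕ} (h : Rs s E q) :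
    (FF s E q = E ∨ FF s E q = insert q E) ∧ ¬ V0 (up s q) (FF s E q) ⊆ V0 s E ∧
      ¬ V17 (up s q) (FF s E q) ⊆ V17 s E := by
  unfold FF
  rw [dif_pos h]
  exact h.choose_spec

lemma pt_facts {z Y : ℕ} {s : Fin 3 → ℕ} {q : ℕ} (hY1 : 1 ≤ Y) (hzY : (z : ℝ) < (Y : ℝ) ^ (1 / 3 : ℝ))
    (hY7 : (1 : ℝ) < (Y : ℝ) ^ (1 / 3 - 1 / 2000 : ℝ)) (hD : Dat z s) (hS : Sml Y s)
    (hq : q ∈ Pt Y) : q.Prime ∧ z < q ∧ (∀ j, s j < q) ∧ ¬ q ∣ ∏ j, s j ∧
      (q : ℝ) ≤ (Y : ℝ) ^ (1 / 2 : ℝ) := by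
  unfold Pt at hq
  rw [mem_filter] at hq
  obtain ⟨-, hqp, h1, h2⟩ := hq
  have hYr : (0 : ℝ) < Y := by exact_mod_cast hY1
  have h3 : z < q := by
    have : (z : ℝ) < q := by linarith
    exact_mod_cast this
  have h4 : ∀ j, s j < q := by
    intro j
    have h5 := hS j
    have h6 : (Y : ℝ) ^ (1 / 2000 : ℝ) < (Y : ℝ) ^ (1 / 3 : ℝ) := by
      have h7 : (Y : ℝ) ^ (1 / 3 : ℝ) = (Y : ℝ) ^ (1 / 3 - 1 / 2000 : ℝ) *
          (Y : ℝ) ^ (1 / 2000 : ℝ) := by
        rw [← Real.rpow_add hYr]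
        norm_num
      rw [h7]
      have h8 : 0 < (Y : ℝ) ^ (1 / 2000 : ℝ) := by positivity
      nlinarith
    have : (s j : ℝ) < q := by linarith
    exact_mod_cast this
  exact ⟨hqp, h3, h4, nd_of_gt hqp h4 hD, h2⟩

open Classical in
/-- the triples `(s, E, q)` are counted by the new data -/
lemma inj_bound (hG : St_GRP) {z r Y : ℕ} {B : ℝ} (hz : 17 ≤ z) (hY : Y = ⌊B⌋₊) (hB : 0 ≤ B)
    (hY1 : 1 ≤ Y) (hzY : (z : ℝ) < (Y : ℝ) ^ (1 / 3 : ℝ))
    (hY7 : (1 : ℝ) < (Y : ℝ) ^ (1 / 3 - 1 / 2000 : ℝ)) (TT : Finset (Fin 3 → ℕ))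
    (hTT : TT ⊆ Trip z ((Y : ℝ) ^ (1 / 2000 : ℝ))) :
    ∑ s ∈ TT, ∑ E ∈ DS r s, ∑ q ∈ (Pt Y).filter (fun q => Rs s E q), mu (up s q) ≤
      ∑ s ∈ Trip z B, mu s * ((DS (r + 1) s).card : ℝ) := by
  have hsplit : ∑ s ∈ TT, ∑ E ∈ DS r s, ∑ q ∈ (Pt Y).filter (fun q => Rs s E q), mu (up s q) =
      ∑ x ∈ TT.sigma (fun s => (DS r s).sigma (fun E => (Pt Y).filter (fun q => Rs s E q))),
        mu (up x.1 x.2.2) := by
    rw [sum_sigma]
    apply sum_congr rfl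
    intro s _
    rw [sum_sigma]
  have hsplit2 : ∑ s ∈ Trip z B, mu s * ((DS (r + 1) s).card : ℝ) =
      ∑ x ∈ (Trip z B).sigma (fun s => DS (r + 1) s), mu x.1 := by
    rw [sum_sigma]
    apply sum_congr rfl
    intro s _
    show _ = ∑ _x ∈ DS (r + 1) s, mu s
    rw [sum_const, nsmul_eq_mul, mul_comm]
  rw [hsplit, hsplit2]
  set Ω := TT.sigma (fun s => (DS r s).sigma (fun E => (Pt Y).filter (fun q => Rs s E q))) with hΩ
  have hfacts : ∀ x ∈ Ω, Dat z x.1 ∧ x.2.1 ⊆ (∏ j, x.1 j).primeFactors ∧ Dt r x.1 x.2.1 ∧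
      Rs x.1 x.2.1 x.2.2 ∧ x.2.2.Prime ∧ z < x.2.2 ∧ (∀ j, x.1 j < x.2.2) ∧
      ¬ x.2.2 ∣ ∏ j, x.1 j ∧ (x.2.2 : ℝ) ≤ (Y : ℝ) ^ (1 / 2 : ℝ) ∧
      x.1 ∈ Trip z ((Y : ℝ) ^ (1 / 2000 : ℝ)) := by
    intro x hx
    rw [hΩ, mem_sigma, mem_sigma, mem_filter] at hx
    obtain ⟨a1, a2, a3, a4⟩ := hx
    have a5 := hTT a1
    obtain ⟨hD, hS⟩ := Trip_dat a5
    unfold DS at a2
    rw [mem_filter, mem_powerset] at a2
    obtain ⟨b1, b2, b3, b4, b5⟩ := pt_facts hY1 hzY hY7 hD hS a3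
    exact ⟨hD, a2.1, a2.2, a4, b1, b2, b3, b4, b5, a5⟩
  obtain ⟨Φ, hΦ⟩ : ∃ Φ : (Σ _ : Fin 3 → ℕ, Σ _ : Finset ℕ, ℕ) → (Σ _ : Fin 3 → ℕ, Finset ℕ),
      Φ = fun x => ⟨up x.1 x.2.2, FF x.1 x.2.1 x.2.2⟩ := ⟨_, rfl⟩
  have hinj : Set.InjOn Φ (Ω : Set (Σ _ : Fin 3 → ℕ, Σ _ : Finset ℕ, ℕ)) := by
    rintro ⟨s, E, q⟩ hx ⟨s', E', q'⟩ hx' h
    obtain ⟨a1, a2, a3, a4, a5, a6, a7, a8, a9, a10⟩ := hfacts _ hx
    obtain ⟨b1, b2, b3, b4, b5, b6, b7, b8, b9, b10⟩ := hfacts _ hx'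
    simp only at a1 a2 a3 a4 a5 a6 a7 a8 a9 a10 b1 b2 b3 b4 b5 b6 b7 b8 b9 b10
    rw [hΦ] at h
    simp only [Sigma.mk.injEq, heq_eq_eq] at h
    obtain ⟨h1, h2⟩ := h
    have c0 : s 0 = s' 0 := by
      have := congrFun h1 0
      rwa [up_zero, up_zero] at this
    have c1 : s 1 = s' 1 := by
      have := congrFun h1 1
      rwa [up_one, up_one] at this
    have c2 : s 2 * q = s' 2 * q' := by
      have := congrFun h1 2
      rwa [up_two, up_two] at this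
    have hqq : q = q' := by
      have h3 : q ∣ s' 2 * q' := ⟨s 2, by rw [← c2, mul_comm]⟩
      have h3' : q' ∣ s 2 * q := ⟨s' 2, by rw [c2, mul_comm]⟩
      rcases (a5.dvd_mul).1 h3 with h4 | h4
      · rcases (b5.dvd_mul).1 h3' with h5 | h5
        · have k1 := Nat.le_of_dvd (Nat.pos_of_ne_zero (b1.ne 2)) h4
          have k2 := Nat.le_of_dvd (Nat.pos_of_ne_zero (a1.ne 2)) h5
          have k3 := a7 2
          have k4 := b7 2
          omega
        · exact ((Nat.prime_dvd_prime_iff_eq b5 a5).1 h5).symm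
      · exact (Nat.prime_dvd_prime_iff_eq a5 b5).1 h4
    subst hqq
    have c3 : s 2 = s' 2 := Nat.eq_of_mul_eq_mul_right a5.pos c2
    have hss : s = s' := by
      funext j
      fin_cases j
      · exact c0
      · exact c1
      · exact c3
    subst hss
    have hqE : q ∉ E := fun h => a8 (Nat.dvd_of_mem_primeFactors (a2 h))
    have hqE' : q ∉ E' := fun h => a8 (Nat.dvd_of_mem_primeFactors (b2 h))
    have k1 : (FF s E q).erase q = E := by
      rcases (FF_spec a4).1 with h | h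
      · rw [h, erase_eq_of_notMem hqE]
      · rw [h, erase_insert hqE]
    have k2 : (FF s E' q).erase q = E' := by
      rcases (FF_spec b4).1 with h | h
      · rw [h, erase_eq_of_notMem hqE']
      · rw [h, erase_insert hqE']
    have hEE : E = E' := by rw [← k1, ← k2, h2]
    subst hEE
    rfl
  have himg : ∑ x ∈ Ω, mu (up x.1 x.2.2) = ∑ y ∈ Ω.image Φ, mu y.1 := by
    rw [sum_image hinj, hΦ]
  rw [himg]
  apply sum_le_sum_of_subset_of_nonneg
  · intro y hy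
    rw [mem_image] at hy
    obtain ⟨x, hx, rfl⟩ := hy
    obtain ⟨a1, a2, a3, a4, a5, a6, a7, a8, a9, a10⟩ := hfacts _ hx
    have hF := FF_spec a4
    rw [hΦ, mem_sigma]
    refine ⟨up_mem hY hB hY1 a10 a5 a6 a9 a8, ?_⟩
    show FF x.1 x.2.1 x.2.2 ∈ DS (r + 1) (up x.1 x.2.2)
    unfold DS
    rw [mem_filter, mem_powerset]
    refine ⟨?_, dt_up hG hz a1 a2 a3 a5 a6 a8 hF.1 hF.2.1 hF.2.2⟩
    have h11 : x.2.1 ⊆ (∏ j, up x.1 x.2.2 j).primeFactors := by
      refine a2.trans ?_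
      rw [up_prod]
      exact Nat.primeFactors_mono (dvd_mul_right _ _) (mul_ne_zero a1.sqf.ne_zero a5.ne_zero)
    rcases hF.1 with h | h
    · rw [h]; exact h11
    · rw [h, insert_subset_iff]
      refine ⟨?_, h11⟩
      rw [up_prod]
      exact Nat.mem_primeFactors.2 ⟨a5, dvd_mul_left _ _, mul_ne_zero a1.sqf.ne_zero a5.ne_zero⟩
  · intro y _ _
    exact mu_nonneg _

open Classical in
theorem step (hR : St_RAI) (hG : St_GRP) (hDSC : Pool.Agent.Y667.RZ.St_DSC) (r : ℕ)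
    (ih : PP' r) : PP' (r + 1) := by
  obtain ⟨z0, ih⟩ := ih
  refine ⟨max z0 17, fun z hz κ hκ => ?_⟩
  have hz17 : 17 ≤ z := (le_max_right _ _).trans hz
  obtain ⟨c, hc, X1, ih⟩ := ih z ((le_max_left _ _).trans hz) (1 / 2000) (by norm_num)
  obtain ⟨X2, hdsc⟩ := dsc_rare hDSC z
  obtain ⟨X3, hmert⟩ := mert_low
  obtain ⟨d, hd⟩ : ∃ d : ℝ, d = 1 / 2 ^ (2 * r + 4) := ⟨_, rfl⟩
  have hd0 : 0 < d := by rw [hd]; positivity
  have e4 := (pow_tendsto (e := 1 / 3 - 3 / 2000) (by norm_num)).eventually_gt_atTop (136 : ℝ)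
  have e5 := log_tendsto.eventually_ge_atTop (2 / (c * d) + 1 : ℝ)
  have e6 := (pow_tendsto (e := 1 / 3) (by norm_num)).eventually_gt_atTop (z : ℝ)
  have e7 := (pow_tendsto (e := 1 / 3 - 1 / 2000) (by norm_num)).eventually_gt_atTop (1 : ℝ)
  obtain ⟨X4, hX4⟩ := ((e4.and e5).and (e6.and e7)).exists_forall_of_atTop
  have f1 : Tendsto (fun X : ℕ => ⌊(X : ℝ) ^ κ⌋₊) atTop atTop :=
    tendsto_nat_floor_atTop.comp (pow_tendsto hκ)
  have f2 := f1.eventually_ge_atTop (max (max (max X1 X2) (max X3 X4)) 1)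
  have f3 := log_tendsto.eventually_ge_atTop (2 / κ : ℝ)
  obtain ⟨X0, hX0⟩ := (f2.and f3).exists_forall_of_atTop
  refine ⟨d / 4 * (c / 2) * (κ / 2) ^ 3, by positivity, max X0 1, fun X hX => ?_⟩
  obtain ⟨hY, hlogX⟩ := hX0 X ((le_max_left _ _).trans hX)
  have hX1' : 1 ≤ X := (le_max_right _ _).trans hX
  have hXr : (0 : ℝ) < X := by exact_mod_cast hX1'
  obtain ⟨Y, hYdef⟩ : ∃ Y : ℕ, Y = ⌊(X : ℝ) ^ κ⌋₊ := ⟨_, rfl⟩
  rw [← hYdef] at hY
  have hY1 : 1 ≤ Y := (le_max_right _ _).trans hY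
  have hY' : max (max X1 X2) (max X3 X4) ≤ Y := (le_max_left _ _).trans hY
  have hYX1 : X1 ≤ Y := ((le_max_left _ _).trans (le_max_left _ _)).trans hY'
  have hYX2 : X2 ≤ Y := ((le_max_right _ _).trans (le_max_left _ _)).trans hY'
  have hYX3 : X3 ≤ Y := ((le_max_left _ _).trans (le_max_right _ _)).trans hY'
  have hYX4 : X4 ≤ Y := ((le_max_right _ _).trans (le_max_right _ _)).trans hY'
  obtain ⟨⟨g4, g5⟩, g6, g7⟩ := hX4 Y hYX4
  have hYr : (0 : ℝ) < Y := by exact_mod_cast hY1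
  have hih := ih Y hYX1
  have hds := hdsc Y hYX2
  have hΛ := hmert Y hYX3
  have hB0 : 0 ≤ (X : ℝ) ^ κ := by positivity
  have hlogY : κ / 2 * Real.log X ≤ Real.log Y := by
    have h1 : (X : ℝ) ^ κ / 2 ≤ Y := by
      have h2 := Nat.lt_floor_add_one ((X : ℝ) ^ κ)
      rw [← hYdef] at h2
      have h3 : (1 : ℝ) ≤ Y := by exact_mod_cast hY1
      linarith
    have h2 : 0 < (X : ℝ) ^ κ / 2 := by positivity
    have h3 := Real.log_le_log h2 h1
    rw [Real.log_div (by positivity) (by norm_num), Real.log_rpow hXr] at h3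
    have h4 := Real.log_two_lt_d9
    have h5 : 1 ≤ κ / 2 * Real.log X := by
      rw [div_le_iff₀ hκ] at hlogX
      linarith
    linarith
  obtain ⟨T, hT⟩ : ∃ T, T = Trip z ((Y : ℝ) ^ (1 / 2000 : ℝ)) := ⟨_, rfl⟩
  rw [← hT] at hih hds
  obtain ⟨TT, hTT⟩ : ∃ TT, TT = T.filter (fun s => Dsc Y (136 * ∏ j, s j) ≤ d) := ⟨_, rfl⟩
  have hTsub : TT ⊆ T := by rw [hTT]; exact filter_subset _ _
  have hLY : 1 ≤ Real.log Y := by
    have : 0 < 2 / (c * d) := by positivity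
    linarith
  -- few exceptional data
  have h6 : c / 2 * Real.log Y ^ 3 ≤ ∑ s ∈ TT, mu s * ((DS r s).card : ℝ) := by
    have hbad : ∑ s ∈ T.filter (fun s => ¬ Dsc Y (136 * ∏ j, s j) ≤ d),
        mu s * ((DS r s).card : ℝ) ≤ 1 / d := by
      have k1 : ∀ s ∈ T.filter (fun s => ¬ Dsc Y (136 * ∏ j, s j) ≤ d),
          mu s * ((DS r s).card : ℝ) ≤ 1 / d * ((∏ j, 1 / (s j : ℝ)) * Dsc Y (136 * ∏ j, s j)) := by
        intro s hs
        rw [mem_filter, not_le] at hs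
        have k2 : ((DS r s).card : ℝ) ≤ 2 ^ (∏ j, s j).primeFactors.card := by
          exact_mod_cast DS_card r s
        have k3 : 0 ≤ ∏ j, 1 / (s j : ℝ) := prod_nonneg fun j _ => by positivity
        have k4 : mu s * ((DS r s).card : ℝ) ≤ ∏ j, 1 / (s j : ℝ) := by
          unfold mu
          calc (1 / 2 : ℝ) ^ (∏ j, s j).primeFactors.card * (∏ j, 1 / (s j : ℝ)) *
                ((DS r s).card : ℝ) ≤ (1 / 2 : ℝ) ^ (∏ j, s j).primeFactors.card *
                (∏ j, 1 / (s j : ℝ)) * 2 ^ (∏ j, s j).primeFactors.card := by gcongr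
            _ = ((1 / 2 : ℝ) * 2) ^ (∏ j, s j).primeFactors.card * (∏ j, 1 / (s j : ℝ)) := by
                rw [mul_pow]; ring
            _ = _ := by norm_num
        have k5 : 1 ≤ 1 / d * Dsc Y (136 * ∏ j, s j) := by
          rw [one_div, inv_mul_eq_div, one_le_div hd0]
          exact hs.2.le
        calc mu s * ((DS r s).card : ℝ) ≤ ∏ j, 1 / (s j : ℝ) := k4
          _ ≤ (∏ j, 1 / (s j : ℝ)) * (1 / d * Dsc Y (136 * ∏ j, s j)) :=
              le_mul_of_one_le_right k3 k5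
          _ = _ := by ring
      refine (sum_le_sum k1).trans ?_
      rw [← mul_sum]
      have k6 : ∑ s ∈ T.filter (fun s => ¬ Dsc Y (136 * ∏ j, s j) ≤ d),
          (∏ j, 1 / (s j : ℝ)) * Dsc Y (136 * ∏ j, s j) ≤
          ∑ s ∈ T, (∏ j, 1 / (s j : ℝ)) * Dsc Y (136 * ∏ j, s j) :=
        sum_le_sum_of_subset_of_nonneg (filter_subset _ _) fun s _ _ =>
          mul_nonneg (prod_nonneg fun j _ => by positivity) (Dsc_nonneg _ _)
      have k7 : (0 : ℝ) ≤ 1 / d := by positivity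
      calc _ ≤ 1 / d * 1 := mul_le_mul_of_nonneg_left (k6.trans hds) k7
        _ = 1 / d := mul_one _
    have hsplit0 := sum_filter_add_sum_filter_not T
      (fun s => Dsc Y (136 * ∏ j, s j) ≤ d) (fun s => mu s * ((DS r s).card : ℝ))
    have k7 : 1 / d ≤ c / 2 * Real.log Y ^ 3 := by
      have k8 : 2 / (c * d) ≤ Real.log Y := by linarith
      rw [div_le_iff₀ (by positivity)] at k8
      have k10 : Real.log Y ≤ Real.log Y ^ 3 := le_self_pow₀ hLY (by norm_num)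
      rw [div_le_iff₀ hd0]
      have k11 : Real.log Y * (c * d) ≤ Real.log Y ^ 3 * (c * d) :=
        mul_le_mul_of_nonneg_right k10 (by positivity)
      linarith
    rw [← hTT] at hsplit0
    linarith
  -- many primes
  have hmain : d * ∑ s ∈ TT, mu s * ((DS r s).card : ℝ) ≤
      4 * ∑ s ∈ TT, ∑ E ∈ DS r s, ∑ q ∈ (Pt Y).filter (fun q => Rs s E q), mu (up s q) := by
    rw [mul_sum, mul_sum]
    apply sum_le_sum
    intro s hs
    obtain ⟨hD, hS⟩ := Trip_dat (hT ▸ hTsub hs : s ∈ Trip z ((Y : ℝ) ^ (1 / 2000 : ℝ)))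
    have hdsc : Dsc Y (136 * ∏ j, s j) ≤ d := by
      rw [hTT] at hs
      exact (mem_filter.1 hs).2
    have h17 : ¬ 17 ∣ ∏ j, s j := by
      intro h
      have := hD.gt 17 (by norm_num) h
      omega
    have h136 : (136 * (∏ j, s j : ℕ) : ℝ) < (Y : ℝ) ^ (1 / 3 : ℝ) := by
      have hκ' : 0 < (Y : ℝ) ^ (1 / 2000 : ℝ) := by positivity
      have h0 := hS 0
      have h1 := hS 1
      have h2 := hS 2
      have h3 : (((∏ j, s j : ℕ)) : ℝ) ≤ (Y : ℝ) ^ (3 / 2000 : ℝ) := by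
        rw [Fin.prod_univ_three]
        push_cast
        calc (s 0 : ℝ) * s 1 * s 2 ≤ (Y : ℝ) ^ (1 / 2000 : ℝ) * (Y : ℝ) ^ (1 / 2000 : ℝ) *
              (Y : ℝ) ^ (1 / 2000 : ℝ) := by gcongr
          _ = (Y : ℝ) ^ (1 / 2000 + 1 / 2000 + 1 / 2000 : ℝ) := by
              rw [← Real.rpow_add hYr, ← Real.rpow_add hYr]
          _ = _ := by norm_num
      have h6 : (Y : ℝ) ^ (1 / 3 : ℝ) = (Y : ℝ) ^ (1 / 3 - 3 / 2000 : ℝ) *
          (Y : ℝ) ^ (3 / 2000 : ℝ) := by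
        rw [← Real.rpow_add hYr]
        norm_num
      rw [h6]
      have h7 : 0 < (Y : ℝ) ^ (3 / 2000 : ℝ) := by positivity
      calc (136 : ℝ) * (∏ j, s j : ℕ) ≤ 136 * (Y : ℝ) ^ (3 / 2000 : ℝ) :=
            mul_le_mul_of_nonneg_left h3 (by norm_num)
        _ < _ := mul_lt_mul_of_pos_right g4 h7
    have hE1 : ∀ E ∈ DS r s, d * mu s ≤
        4 * ∑ q ∈ (Pt Y).filter (fun q => Rs s E q), mu (up s q) := by
      intro E hE
      unfold DS at hE
      rw [mem_filter, mem_powerset] at hE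
      have h1 := hR Y r s E hD.sqf (hD.odd (by omega)) h17 hE.1 h136 hE.2.1 hE.2.2.1
      have h2 : d ≤ ∑ q ∈ (Pt Y).filter (fun q => Rs s E q), 1 / ((q : ℝ) - 1) := by
        refine le_trans ?_ h1
        have h3 : (2 : ℝ) * d ≤ (∑ q ∈ Pt Y, 1 / ((q : ℝ) - 1)) / 2 ^ (2 * r + 1) := by
          rw [hd, le_div_iff₀ (by positivity)]
          have h4 : (2 : ℝ) * (1 / 2 ^ (2 * r + 4)) * 2 ^ (2 * r + 1) = 1 / 4 := by
            rw [pow_add, pow_add]
            field_simp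
            norm_num
          rw [h4]
          exact hΛ
        linarith
      have h3 : ∀ q ∈ (Pt Y).filter (fun q => Rs s E q),
          mu s * (1 / ((q : ℝ) - 1)) ≤ 4 * mu (up s q) := by
        intro q hq
        rw [mem_filter] at hq
        obtain ⟨b1, b2, b3, b4, b5⟩ := pt_facts hY1 g6 g7 hD hS hq.1
        rw [mu_up hD b1 b4]
        have h5 : (2 : ℝ) ≤ q := by exact_mod_cast b1.two_le
        have h6 : 1 / ((q : ℝ) - 1) ≤ 2 / q := by
          rw [div_le_div_iff₀ (by linarith) (by linarith)]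
          linarith
        calc mu s * (1 / ((q : ℝ) - 1)) ≤ mu s * (2 / q) :=
              mul_le_mul_of_nonneg_left h6 (mu_nonneg s)
          _ = 4 * (mu s / (2 * q)) := by
              have : (q : ℝ) ≠ 0 := by linarith
              field_simp
              norm_num
      have h4 := sum_le_sum h3
      rw [← mul_sum, ← mul_sum] at h4
      refine le_trans ?_ h4
      rw [mul_comm d]
      exact mul_le_mul_of_nonneg_left h2 (mu_nonneg s)
    have h5 := sum_le_sum hE1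
    rw [sum_const, nsmul_eq_mul, ← mul_sum] at h5
    linarith
  have hinj := inj_bound (r := r) hG hz17 hYdef hB0 hY1 g6 g7 TT (hT ▸ hTsub)
  have hlog0 : 0 ≤ κ / 2 * Real.log X := by
    have : 0 ≤ Real.log X := Real.log_nonneg (by exact_mod_cast hX1')
    positivity
  have hpow : (κ / 2 * Real.log X) ^ 3 ≤ Real.log Y ^ 3 := pow_le_pow_left₀ hlog0 hlogY 3
  have h9 : c / 2 * (κ / 2 * Real.log X) ^ 3 ≤ ∑ s ∈ TT, mu s * ((DS r s).card : ℝ) :=
    (mul_le_mul_of_nonneg_left hpow (by positivity)).trans h6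
  have h10 : d * (c / 2 * (κ / 2 * Real.log X) ^ 3) ≤
      4 * ∑ s ∈ Trip z ((X : ℝ) ^ κ), mu s * ((DS (r + 1) s).card : ℝ) :=
    (mul_le_mul_of_nonneg_left h9 hd0.le).trans (hmain.trans
      (mul_le_mul_of_nonneg_left hinj (by norm_num)))
  have h11 : d / 4 * (c / 2) * (κ / 2) ^ 3 * Real.log X ^ 3 =
      d * (c / 2 * (κ / 2 * Real.log X) ^ 3) / 4 := by ring
  rw [h11]
  linarith

open Classical in
/-- **GDR** -/
theorem GDR (hGD : Pool.Agent.Y667.RZ.St_GD2) (hR : St_RAI) (hG : St_GRP)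
    (hDSC : Pool.Agent.Y667.RZ.St_DSC) : St_GDR := by
  have h : ∀ r, PP' r := by
    intro r
    induction r with
    | zero =>
      obtain ⟨z0, h⟩ := hGD
      refine ⟨max z0 2, fun z hz κ hκ => ?_⟩
      obtain ⟨c, hc, X0, h⟩ := h z ((le_max_left _ _).trans hz) κ hκ
      refine ⟨c, hc, X0, fun X hX => (h X hX).trans ?_⟩
      apply sum_le_sum
      intro s hs
      apply mul_le_mul_of_nonneg_left _ (mu_nonneg s)
      have h1 : (∏ j, s j).primeFactors.powerset.filter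
          (fun E => V0 s E = {(1, 1)} ∧ V17 s E = {(1, 1)}) ⊆ DS 0 s := by
        intro E hE
        rw [mem_filter] at hE
        unfold DS
        rw [mem_filter]
        refine ⟨hE.1, ?_, ?_, ?_⟩
        · rw [hE.2.1, Set.ncard_singleton, pow_zero]
        · rw [hE.2.2, Set.ncard_singleton, pow_zero]
        · intro σ hσ
          exact sigma_of ((Trip_dat hs).1.odd ((le_max_right _ _).trans hz)) hE.2.1 hσ
      exact_mod_cast card_le_card h1
    | succ r ih => exact step hR hG hDSC r ih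
  intro r
  exact h r

end Pool.Agent.Y571.MT
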